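import Mathlib

/-!
# MP_1d99bd_co : a shortest flip path that flips a common edge

Two `2`-triangulations of the convex octagon, with a common edge, and a shortest path between
them in the flip graph that flips this common edge.
-/

namespace Pool.Agent.Results.MP_1d99bd_co.CommonEdgeFlipped

open Finset

/-- The edges of the convex `n`-gon: the segments joining two vertices `i < j`
(sides and diagonals), the vertices being numbered `0, …, n - 1` in cyclic order. -/
def edges (n : ℕ) : Finset (Fin n × Fin n) := univ.filter fun e => e.1 < e.2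

/-- Two edges of the convex `n`-gon cross: their end points are distinct and alternate. -/
def Crossing {n : ℕ} (e f : Fin n × Fin n) : Prop :=
  (e.1 < f.1 ∧ f.1 < e.2 ∧ e.2 < f.2) ∨ (f.1 < e.1 ∧ e.1 < f.2 ∧ f.2 < e.2)

instance {n : ℕ} (e f : Fin n × Fin n) : Decidable (Crossing e f) := by
  unfold Crossing; infer_instance

/-- `T` contains no `k + 1` pairwise crossing edges. -/
def CrossFree {n : ℕ} (k : ℕ) (T : Finset (Fin n × Fin n)) : Prop :=
  ∀ S ⊆ T, (∀ e ∈ S, ∀ f ∈ S, e ≠ f → Crossing e f) → S.card ≤ k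

/-- A `k`-triangulation of the convex `n`-gon: a maximal set of edges without `k + 1` pairwise
crossing edges. -/
def IsKTriangulation (n k : ℕ) (T : Finset (Fin n × Fin n)) : Prop :=
  T ⊆ edges n ∧ CrossFree k T ∧ ∀ e ∈ edges n, e ∉ T → ¬ CrossFree k (insert e T)

/-- The flip graph on the `k`-triangulations of the convex `n`-gon: two `k`-triangulations are
adjacent when one arises from the other by exchanging exactly one edge for another. -/
def flipGraph (n k : ℕ) :
    SimpleGraph {T : Finset (Fin n × Fin n) // IsKTriangulation n k T} where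
  Adj T T' := (T.1 \ T'.1).card = 1 ∧ (T'.1 \ T.1).card = 1
  symm := ⟨fun _ _ h => ⟨h.2, h.1⟩⟩
  loopless := ⟨fun T h => by simp at h⟩

/-- the triple test -/
lemma crossFree_two {n : ℕ} {T : Finset (Fin n × Fin n)}
    (h : ∀ a ∈ T, ∀ b ∈ T, Crossing a b → ∀ c ∈ T, Crossing a c → ¬ Crossing b c) :
    CrossFree 2 T := by
  intro S hS hp
  by_contra hc
  push Not at hc
  obtain ⟨a, b, c, ha, hb, hc', hab, hac, hbc⟩ := Finset.two_lt_card_iff.1 hc
  exact h a (hS ha) b (hS hb) (hp a ha b hb hab) c (hS hc') (hp a ha c hc' hac)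
    (hp b hb c hc' hbc)

lemma not_crossFree_two {n : ℕ} {T : Finset (Fin n × Fin n)}
    (h : ∃ a ∈ T, ∃ b ∈ T, Crossing a b ∧ ∃ c ∈ T, Crossing a c ∧ Crossing b c) :
    ¬ CrossFree 2 T := by
  obtain ⟨a, ha, b, hb, hab, c, hc, hac, hbc⟩ := h
  intro hT
  have hsymm : ∀ {e f : Fin n × Fin n}, Crossing e f → Crossing f e := fun h => h.symm
  have hirr : ∀ {e f : Fin n × Fin n}, Crossing e f → e ≠ f := by
    rintro e f h rfl
    rcases h with h | h
    · exact absurd h.1 (lt_irrefl _)
    · exact absurd h.1 (lt_irrefl _)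
  have h1 := hT {a, b, c} (by
    intro x hx
    simp only [Finset.mem_insert, Finset.mem_singleton] at hx
    rcases hx with rfl | rfl | rfl <;> assumption) (by
    intro e he f hf hef
    simp only [Finset.mem_insert, Finset.mem_singleton] at he hf
    rcases he with rfl | rfl | rfl <;> rcases hf with rfl | rfl | rfl <;>
      first
        | exact absurd rfl hef
        | assumption
        | (apply hsymm; assumption))
  rw [Finset.card_eq_three.2 ⟨a, b, c, hirr hab, hirr hac, hirr hbc, rfl⟩] at h1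
  omega

/-- the edges of the octagon of length one and two (in no triple of pairwise crossing edges) -/
def short : Finset (Fin 8 × Fin 8) :=
  {(0, 1), (1, 2), (2, 3), (3, 4), (4, 5), (5, 6), (6, 7), (0, 7),
   (0, 2), (1, 3), (2, 4), (3, 5), (4, 6), (5, 7), (0, 6), (1, 7)}

/-- the five `2`-triangulations on the path -/
def V0 : Finset (Fin 8 × Fin 8) := short ∪ {(0, 3), (0, 4), (1, 4), (1, 5), (1, 6), (4, 7)}
def V1 : Finset (Fin 8 × Fin 8) := short ∪ {(0, 3), (0, 4), (1, 4), (3, 6), (1, 6), (4, 7)}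
def V2 : Finset (Fin 8 × Fin 8) := short ∪ {(2, 6), (0, 4), (1, 4), (3, 6), (1, 6), (4, 7)}
def V3 : Finset (Fin 8 × Fin 8) := short ∪ {(2, 6), (2, 7), (1, 4), (3, 6), (1, 6), (4, 7)}
def V4 : Finset (Fin 8 × Fin 8) := short ∪ {(2, 6), (2, 7), (1, 4), (3, 6), (1, 6), (1, 5)}

/-- Bool valued test -/
def free (T : Finset (Fin 8 × Fin 8)) : Bool :=
  decide (∀ a ∈ T, ∀ b ∈ T, Crossing a b → ∀ c ∈ T, Crossing a c → ¬ Crossing b c)

def test (T : Finset (Fin 8 × Fin 8)) : Bool :=
  decide (T ⊆ edges 8) && free T &&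
    decide (∀ e ∈ edges 8, e ∉ T → ∃ a ∈ insert e T, ∃ b ∈ insert e T, Crossing a b ∧
      ∃ c ∈ insert e T, Crossing a c ∧ Crossing b c)

lemma isK_of_test {T : Finset (Fin 8 × Fin 8)} (h : test T = true) : IsKTriangulation 8 2 T := by
  simp only [test, free, Bool.and_eq_true, decide_eq_true_eq] at h
  exact ⟨h.1.1, crossFree_two h.1.2, fun e he heT => not_crossFree_two (h.2 e he heT)⟩

lemma t0 : test V0 = true := by decide +kernel
lemma t1 : test V1 = true := by decide +kernel
lemma t2 : test V2 = true := by decide +kernel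
lemma t3 : test V3 = true := by decide +kernel
lemma t4 : test V4 = true := by decide +kernel

def W0 : {T : Finset (Fin 8 × Fin 8) // IsKTriangulation 8 2 T} := ⟨V0, isK_of_test t0⟩
def W1 : {T : Finset (Fin 8 × Fin 8) // IsKTriangulation 8 2 T} := ⟨V1, isK_of_test t1⟩
def W2 : {T : Finset (Fin 8 × Fin 8) // IsKTriangulation 8 2 T} := ⟨V2, isK_of_test t2⟩
def W3 : {T : Finset (Fin 8 × Fin 8) // IsKTriangulation 8 2 T} := ⟨V3, isK_of_test t3⟩
def W4 : {T : Finset (Fin 8 × Fin 8) // IsKTriangulation 8 2 T} := ⟨V4, isK_of_test t4⟩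

lemma a01 : (flipGraph 8 2).Adj W0 W1 := by
  show (V0 \ V1).card = 1 ∧ (V1 \ V0).card = 1
  decide +kernel
lemma a12 : (flipGraph 8 2).Adj W1 W2 := by
  show (V1 \ V2).card = 1 ∧ (V2 \ V1).card = 1
  decide +kernel
lemma a23 : (flipGraph 8 2).Adj W2 W3 := by
  show (V2 \ V3).card = 1 ∧ (V3 \ V2).card = 1
  decide +kernel
lemma a34 : (flipGraph 8 2).Adj W3 W4 := by
  show (V3 \ V4).card = 1 ∧ (V4 \ V3).card = 1
  decide +kernel

/-- the path -/
def thePath : (flipGraph 8 2).Walk W0 W4 :=
  .cons a01 (.cons a12 (.cons a23 (.cons a34 .nil)))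

/-- exchanging one edge of `V0 \ V4` for one edge of `V4 \ V0` creates three pairwise crossing
edges -/
lemma noFirst : ∀ a ∈ V0 \ V4, ∀ b ∈ V4 \ V0, ∃ x ∈ insert b (V0.erase a),
    ∃ y ∈ insert b (V0.erase a), Crossing x y ∧
      ∃ z ∈ insert b (V0.erase a), Crossing x z ∧ Crossing y z := by
  decide +kernel

lemma card_le_length {n k : ℕ} {X Y : {T : Finset (Fin n × Fin n) // IsKTriangulation n k T}}
    (p : (flipGraph n k).Walk X Y) : (Y.1 \ X.1).card ≤ p.length := by
  induction p with
  | nil => simp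
  | @cons u v w h q ih =>
    have h1 : w.1 \ u.1 ⊆ (w.1 \ v.1) ∪ (v.1 \ u.1) := by
      intro x hx
      simp only [Finset.mem_union, Finset.mem_sdiff] at hx ⊢
      tauto
    have h2 := (Finset.card_le_card h1).trans (Finset.card_union_le _ _)
    have h3 : (v.1 \ u.1).card = 1 := h.2
    rw [SimpleGraph.Walk.length_cons]
    omega

lemma three_le {X : {T : Finset (Fin 8 × Fin 8) // IsKTriangulation 8 2 T}}
    (h : (flipGraph 8 2).Adj W0 X) : 3 ≤ (V4 \ X.1).card := by
  obtain ⟨h1, h2⟩ := h
  change (V0 \ X.1).card = 1 at h1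
  change (X.1 \ V0).card = 1 at h2
  obtain ⟨a, ha⟩ := Finset.card_eq_one.1 h1
  obtain ⟨b, hb⟩ := Finset.card_eq_one.1 h2
  have hcard : (V4 \ V0).card = 3 := by decide +kernel
  have ha' : ∀ x, x ∈ V0 \ X.1 ↔ x = a := fun x => by rw [ha]; simp
  have hb' : ∀ x, x ∈ X.1 \ V0 ↔ x = b := fun x => by rw [hb]; simp
  have haV : a ∈ V0 ∧ a ∉ X.1 := by
    have := (ha' a).2 rfl
    rwa [Finset.mem_sdiff] at this
  have hbX : b ∈ X.1 ∧ b ∉ V0 := by
    have := (hb' b).2 rfl
    rwa [Finset.mem_sdiff] at this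
  by_cases hb4 : b ∈ V4
  · by_cases ha4 : a ∈ V4
    · have hsub : insert a ((V4 \ V0).erase b) ⊆ V4 \ X.1 := by
        intro x hx
        rw [Finset.mem_insert, Finset.mem_erase, Finset.mem_sdiff] at hx
        rw [Finset.mem_sdiff]
        rcases hx with rfl | ⟨hx1, hx2, hx3⟩
        · exact ⟨ha4, haV.2⟩
        · refine ⟨hx2, fun hxX => hx1 ((hb' x).1 ?_)⟩
          rw [Finset.mem_sdiff]; exact ⟨hxX, hx3⟩
      have h3 := Finset.card_le_card hsub
      rw [Finset.card_insert_of_notMem, Finset.card_erase_of_mem] at h3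
      · omega
      · rw [Finset.mem_sdiff]; exact ⟨hb4, hbX.2⟩
      · intro hc
        rw [Finset.mem_erase, Finset.mem_sdiff] at hc
        exact hc.2.2 haV.1
    · exfalso
      have hX : X.1 = insert b (V0.erase a) := by
        ext x
        rw [Finset.mem_insert, Finset.mem_erase]
        constructor
        · intro hx
          by_cases hx0 : x ∈ V0
          · right
            refine ⟨?_, hx0⟩
            rintro rfl
            exact haV.2 hx
          · left
            apply (hb' x).1
            rw [Finset.mem_sdiff]; exact ⟨hx, hx0⟩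
        · rintro (rfl | ⟨hx1, hx2⟩)
          · exact hbX.1
          · by_contra hc
            exact hx1 ((ha' x).1 (by rw [Finset.mem_sdiff]; exact ⟨hx2, hc⟩))
      have h3 := noFirst a (by rw [Finset.mem_sdiff]; exact ⟨haV.1, ha4⟩) b
        (by rw [Finset.mem_sdiff]; exact ⟨hb4, hbX.2⟩)
      rw [← hX] at h3
      exact not_crossFree_two h3 X.2.2.1
  · have hsub : V4 \ V0 ⊆ V4 \ X.1 := by
      intro x hx
      rw [Finset.mem_sdiff] at hx ⊢
      refine ⟨hx.1, fun hxX => hb4 ?_⟩
      rw [← (hb' x).1 (by rw [Finset.mem_sdiff]; exact ⟨hxX, hx.2⟩)]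
      exact hx.1
    have h3 := Finset.card_le_card hsub
    omega

lemma four_le (p : (flipGraph 8 2).Walk W0 W4) : 4 ≤ p.length := by
  have hne : V0 ≠ V4 := by
    intro h
    have : (V4 \ V0).card = 3 := by decide +kernel
    rw [h, Finset.sdiff_self, Finset.card_empty] at this
    omega
  have key : ∀ {Y : {T : Finset (Fin 8 × Fin 8) // IsKTriangulation 8 2 T}}
      (q : (flipGraph 8 2).Walk W0 Y), Y = W4 → 4 ≤ q.length := by
    intro Y q hY
    cases q with
    | nil => exact absurd (congrArg Subtype.val hY) hne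
    | cons h q =>
      subst hY
      have h1 := three_le h
      have h2 := card_le_length q
      change (V4 \ _).card ≤ _ at h2
      rw [SimpleGraph.Walk.length_cons]
      omega
  exact key p rfl

lemma dist_eq : (flipGraph 8 2).dist W0 W4 = 4 := by
  apply le_antisymm
  · exact SimpleGraph.dist_le thePath
  · obtain ⟨p, hp⟩ := SimpleGraph.Reachable.exists_walk_length_eq_dist
      (⟨thePath⟩ : (flipGraph 8 2).Reachable W0 W4)
    rw [← hp]
    exact four_le p

/-- There are a convex polygon, two of its `k`-triangulations `T` and `T'`, a common edge `e` of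
`T` and `T'`, and a shortest path `p` from `T` to `T'` in the flip graph one of whose steps flips
`e` (it leads from a `k`-triangulation containing `e` to one not containing `e`). The example
found is `n = 8`, `k = 2`, with a path of length `4`. -/
theorem result : ∃ (n k : ℕ) (T T' : {T : Finset (Fin n × Fin n) // IsKTriangulation n k T})
    (e : Fin n × Fin n) (p : (flipGraph n k).Walk T T'),
    e ∈ T.1 ∧ e ∈ T'.1 ∧ p.length = (flipGraph n k).dist T T' ∧
      ∃ i < p.length, e ∈ (p.getVert i).1 ∧ e ∉ (p.getVert (i + 1)).1 := by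
  refine ⟨8, 2, W0, W4, (1, 5), thePath, ?_, ?_, ?_, 0, ?_, ?_, ?_⟩
  · show (1, 5) ∈ V0
    decide +kernel
  · show (1, 5) ∈ V4
    decide +kernel
  · rw [dist_eq]; rfl
  · show 0 < 4
    norm_num
  · show (1, 5) ∈ V0
    decide +kernel
  · show (1, 5) ∉ V1
    decide +kernel

end Pool.Agent.Results.MP_1d99bd_co.CommonEdgeFlipped
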